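import Mathlib

/-!
# Soft polymer kernel: the two core inequalities (abstract one-step versions)

`P` are nonnegative weights supported on `range M`, with
`(l+1) P(l+1) = (a+l) q^l ν(l) P(l)` and `ν ≥ 0` antitone.
-/

namespace Polymer903

open Finset

/-- Two-measure Chebyshev inequality: if `A/B` is non-decreasing (cross-multiplied) and `g` is
non-increasing then `∑ A g * ∑ B ≤ ∑ A * ∑ B g`. -/
theorem cheb (n : ℕ) (A B g : ℕ → ℝ)
    (hAB : ∀ l k, l < k → k < n → A l * B k ≤ A k * B l)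
    (hg : ∀ l k, l < k → k < n → g k ≤ g l) :
    (∑ l ∈ range n, A l * g l) * (∑ l ∈ range n, B l) ≤
      (∑ l ∈ range n, A l) * (∑ l ∈ range n, B l * g l) := by
  have key : ∑ k ∈ range n, ∑ l ∈ range n, (A k * B l - A l * B k) * (g k - g l) ≤ 0 := by
    apply Finset.sum_nonpos
    intro k hk
    apply Finset.sum_nonpos
    intro l hl
    rw [Finset.mem_range] at hk hl
    rcases lt_trichotomy k l with h | h | h
    · have h1 := hAB k l h hl
      have h2 := hg k l h hl
      nlinarith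
    · subst h; simp
    · have h1 := hAB l k h hk
      have h2 := hg l k h hk
      nlinarith
  have e : ∑ k ∈ range n, ∑ l ∈ range n, (A k * B l - A l * B k) * (g k - g l)
      = 2 * ((∑ l ∈ range n, A l * g l) * (∑ l ∈ range n, B l)
        - (∑ l ∈ range n, A l) * (∑ l ∈ range n, B l * g l)) := by
    have e1 : ∀ k l, (A k * B l - A l * B k) * (g k - g l)
        = (A k * g k) * B l - A k * (B l * g l) - (B k * g k) * A l + B k * (A l * g l) := by
      intro k l; ring
    simp only [e1, Finset.sum_add_distrib, Finset.sum_sub_distrib, ← Finset.mul_sum,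
      ← Finset.sum_mul]
    ring
  linarith

/-- Monotone version. -/
theorem cheb_mono (n : ℕ) (A B g : ℕ → ℝ)
    (hAB : ∀ l k, l < k → k < n → A l * B k ≤ A k * B l)
    (hg : ∀ l k, l < k → k < n → g l ≤ g k) :
    (∑ l ∈ range n, A l) * (∑ l ∈ range n, B l * g l) ≤
      (∑ l ∈ range n, A l * g l) * (∑ l ∈ range n, B l) := by
  have h := cheb n A B (fun l => - g l) hAB (fun l k h1 h2 => neg_le_neg (hg l k h1 h2))
  simp only [mul_neg, Finset.sum_neg_distrib, neg_mul] at h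
  linarith

section step

variable {M : ℕ} {P ν : ℕ → ℝ} {a q : ℝ}

/-- shift identity. -/
theorem shift_sum (hsupp : P M = 0)
    (hrec : ∀ l : ℕ, ((l:ℝ) + 1) * P (l+1) = (a + l) * q ^ l * ν l * P l)
    (w g : ℕ → ℝ) :
    ∑ l ∈ range M, P l * ((l:ℝ) * w l * g l) =
      ∑ l ∈ range M, P l * ((a + l) * q ^ l) * (ν l * w (l+1)) * g (l+1) := by
  have h1 : ∑ l ∈ range (M+1), P l * ((l:ℝ) * w l * g l)
      = ∑ l ∈ range M, P l * ((l:ℝ) * w l * g l) := by
    rw [Finset.sum_range_succ, hsupp]; ring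
  rw [← h1, Finset.sum_range_succ']
  simp only [Nat.cast_zero, zero_mul, mul_zero, add_zero]
  apply Finset.sum_congr rfl
  intro l _
  have := hrec l
  push_cast
  calc P (l+1) * (((l:ℝ) + 1) * w (l+1) * g (l+1))
      = (((l:ℝ) + 1) * P (l+1)) * (w (l+1) * g (l+1)) := by ring
    _ = _ := by rw [this]; ring

/-- Core 1, abstract: `a E[G(L) G(L+1)] ≤ (a+1) E[G]^2`. -/
theorem core1 (ha : 0 < a) (hq0 : 0 < q) (hq1 : q ≤ 1)
    (hP : ∀ l, 0 ≤ P l) (hP0 : 0 < P 0) (hM : 0 < M) (hsupp : P M = 0)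
    (hrec : ∀ l : ℕ, ((l:ℝ) + 1) * P (l+1) = (a + l) * q ^ l * ν l * P l)
    (hν0 : ∀ l, 0 ≤ ν l) (hνa : Antitone ν) :
    a * (∑ l ∈ range M, P l * (((a + l) * q ^ l) * ((a + l + 1) * q ^ (l+1)))) *
        (∑ l ∈ range M, P l)
      ≤ (a + 1) * (∑ l ∈ range M, P l * ((a + l) * q ^ l)) ^ 2 := by
  set Z := ∑ l ∈ range M, P l with hZ
  set SG := ∑ l ∈ range M, P l * ((a + l) * q ^ l) with hSG
  set SGG := ∑ l ∈ range M, P l * (((a + l) * q ^ l) * ((a + l + 1) * q ^ (l+1))) with hSGG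
  set SL := ∑ l ∈ range M, P l * (l:ℝ) with hSL
  set SLL := ∑ l ∈ range M, P l * ((l:ℝ) * l) with hSLL
  set SGL := ∑ l ∈ range M, P l * ((a + l) * q ^ l) * (l:ℝ) with hSGL
  have hG0 : ∀ l : ℕ, 0 < (a + l) * q ^ l := fun l => by positivity
  have hqa : ∀ l k : ℕ, l < k → q ^ k ≤ q ^ l := fun l k h =>
    pow_le_pow_of_le_one hq0.le hq1 h.le
  -- F
  set F : ℕ → ℝ := fun l => if l = 0 then 0 else P (l-1) * ((a + (l-1 : ℕ)) * q ^ (l-1)) with hF
  have hFs : ∀ l, F (l+1) = P l * ((a + l) * q ^ l) := fun l => by simp [hF]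
  have hF0 : F 0 = 0 := by simp [hF]
  have hFn : ∀ l, 0 ≤ F l := by
    intro l
    cases l with
    | zero => simp [hF0]
    | succ l => rw [hFs]; exact mul_nonneg (hP l) (hG0 l).le
  have hPF : ∀ l : ℕ, ((l:ℝ)+1) * P (l+1) = ν l * F (l+1) := by
    intro l; rw [hFs, hrec l]; ring
  -- F/P nondecreasing
  have hFP : ∀ l k : ℕ, l < k → F l * P k ≤ F k * P l := by
    intro l k hlk
    cases l with
    | zero => rw [hF0, zero_mul]; exact mul_nonneg (hFn _) (hP _)
    | succ l =>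
      obtain ⟨k, rfl⟩ : ∃ k', k = k' + 1 := ⟨k - 1, by omega⟩
      have hlk' : l < k := by omega
      have hk1 : (0:ℝ) < (k:ℝ) + 1 := by positivity
      have hl1 : (0:ℝ) < (l:ℝ) + 1 := by positivity
      have e1 := hPF l
      have e2 := hPF k
      have hv : ν k ≤ ν l := hνa hlk'.le
      have hlk2 : (l:ℝ) + 1 ≤ (k:ℝ) + 1 := by
        have : (l:ℝ) ≤ k := by exact_mod_cast hlk'.le
        linarith
      have hff : 0 ≤ F (k+1) * F (l+1) := mul_nonneg (hFn _) (hFn _)
      -- P(k+1) F(l+1) = ν k F F /(k+1)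
      have e3 : F (l+1) * P (k+1) = ν k * (F (k+1) * F (l+1)) / ((k:ℝ)+1) := by
        rw [eq_div_iff hk1.ne']; linear_combination F (l+1) * e2
      have e4 : F (k+1) * P (l+1) = ν l * (F (k+1) * F (l+1)) / ((l:ℝ)+1) := by
        rw [eq_div_iff hl1.ne']; linear_combination F (k+1) * e1
      rw [e3, e4]
      apply div_le_div₀ (mul_nonneg (hν0 _) hff) _ hl1 hlk2
      exact mul_le_mul_of_nonneg_right hv hff
  -- (i)
  have hi := cheb (M+1) (fun l => F l * (a + l)) (fun l => P l * (a + l)) (fun l => q ^ l)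
    (by
      intro l k hlk _
      have h1 : 0 ≤ (a + l) * (a + (k:ℝ)) := by positivity
      have := mul_le_mul_of_nonneg_right (hFP l k hlk) h1
      calc F l * (a + l) * (P k * (a + k)) = F l * P k * ((a + l) * (a + k)) := by ring
        _ ≤ F k * P l * ((a + l) * (a + k)) := this
        _ = _ := by ring)
    (fun l k h _ => hqa l k h)
  have i1 : ∑ l ∈ range (M+1), F l * (a + l) * q ^ l = SGG := by
    rw [Finset.sum_range_succ', hF0]
    simp only [zero_mul, add_zero, hFs, hSGG]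
    apply Finset.sum_congr rfl
    intro l _; push_cast; ring
  have i2 : ∑ l ∈ range (M+1), P l * (a + l) = a * Z + SL := by
    rw [Finset.sum_range_succ, hsupp, hZ, hSL, Finset.mul_sum, ← Finset.sum_add_distrib]
    simp only [zero_mul, add_zero]
    apply Finset.sum_congr rfl
    intro l _; ring
  have i3 : ∑ l ∈ range (M+1), F l * (a + l) = (a + 1) * SG + SGL := by
    rw [Finset.sum_range_succ', hF0, hSG, hSGL, Finset.mul_sum, ← Finset.sum_add_distrib]
    simp only [zero_mul, add_zero, hFs]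
    apply Finset.sum_congr rfl
    intro l _; push_cast; ring
  have i4 : ∑ l ∈ range (M+1), P l * (a + l) * q ^ l = SG := by
    rw [Finset.sum_range_succ, hsupp, hSG]
    simp only [zero_mul, add_zero]
    apply Finset.sum_congr rfl
    intro l _; ring
  rw [i1, i2, i3, i4] at hi
  -- (ii)
  have hii := cheb M (fun l => P l * (a + l) * (l:ℝ)) (fun l => P l * (a + l)) (fun l => q ^ l)
    (by
      intro l k hlk _
      have h1 : 0 ≤ P l * P k * ((a + l) * (a + (k:ℝ))) :=
        mul_nonneg (mul_nonneg (hP _) (hP _)) (by positivity)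
      have h2 : (l:ℝ) ≤ k := by exact_mod_cast hlk.le
      have := mul_le_mul_of_nonneg_left h2 h1
      calc P l * (a + l) * (l:ℝ) * (P k * (a + k)) = P l * P k * ((a + l) * (a + k)) * l := by ring
        _ ≤ P l * P k * ((a + l) * (a + k)) * k := this
        _ = _ := by ring)
    (fun l k h _ => hqa l k h)
  have j1 : ∑ l ∈ range M, P l * (a + l) * (l:ℝ) * q ^ l = SGL := by
    rw [hSGL]; apply Finset.sum_congr rfl; intro l _; ring
  have j2 : ∑ l ∈ range M, P l * (a + l) = a * Z + SL := by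
    rw [hZ, hSL, Finset.mul_sum, ← Finset.sum_add_distrib]
    apply Finset.sum_congr rfl; intro l _; ring
  have j3 : ∑ l ∈ range M, P l * (a + l) * (l:ℝ) = a * SL + SLL := by
    rw [hSLL, hSL, Finset.mul_sum, ← Finset.sum_add_distrib]
    apply Finset.sum_congr rfl; intro l _; ring
  have j4 : ∑ l ∈ range M, P l * (a + l) * q ^ l = SG := by
    rw [hSG]; apply Finset.sum_congr rfl; intro l _; ring
  rw [j1, j2, j3, j4] at hii
  -- (iii)
  have hiii := cheb_mono M (fun l => P l * ((a + l) * q ^ l))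
    (fun l => P l * ((a + l) * q ^ l) * ν l) (fun l => (l:ℝ))
    (by
      intro l k hlk _
      have h1 : 0 ≤ P l * ((a + l) * q ^ l) * (P k * ((a + k) * q ^ k)) :=
        mul_nonneg (mul_nonneg (hP _) (hG0 _).le) (mul_nonneg (hP _) (hG0 _).le)
      have := mul_le_mul_of_nonneg_left (hνa hlk.le) h1
      calc P l * ((a + l) * q ^ l) * (P k * ((a + k) * q ^ k) * ν k)
          = P l * ((a + l) * q ^ l) * (P k * ((a + k) * q ^ k)) * ν k := by ring
        _ ≤ _ := this
        _ = _ := by ring)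
    (fun l k h _ => by exact_mod_cast h.le)
  have k1 : ∑ l ∈ range M, P l * ((a + l) * q ^ l) * ν l * (l:ℝ) = SLL - SL := by
    have := shift_sum (a := a) (q := q) hsupp hrec (fun _ => 1) (fun l => (l:ℝ) - 1)
    have e1 : SLL - SL = ∑ l ∈ range M, P l * ((l:ℝ) * 1 * ((l:ℝ) - 1)) := by
      rw [hSLL, hSL, ← Finset.sum_sub_distrib]
      apply Finset.sum_congr rfl; intro l _; ring
    rw [e1, this]
    apply Finset.sum_congr rfl; intro l _; push_cast; ring
  have k2 : ∑ l ∈ range M, P l * ((a + l) * q ^ l) * ν l = SL := by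
    have := shift_sum (a := a) (q := q) hsupp hrec (fun _ => 1) (fun l => 1)
    have e1 : SL = ∑ l ∈ range M, P l * ((l:ℝ) * 1 * 1) := by
      rw [hSL]; apply Finset.sum_congr rfl; intro l _; ring
    rw [e1, this]
    apply Finset.sum_congr rfl; intro l _; ring
  rw [k1, k2, ← hSGL, ← hSG] at hiii
  -- combine
  have hZpos : 0 < Z := by
    rw [hZ]
    exact Finset.sum_pos' (fun l _ => hP l) ⟨0, Finset.mem_range.2 hM, hP0⟩
  have hSL0 : 0 ≤ SL := Finset.sum_nonneg (fun l _ => mul_nonneg (hP l) (Nat.cast_nonneg l))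
  have hSGpos : 0 < SG := by
    rw [hSG]
    exact Finset.sum_pos' (fun l _ => mul_nonneg (hP l) (hG0 l).le)
      ⟨0, Finset.mem_range.2 hM, mul_pos hP0 (hG0 0)⟩
  -- c1 : SGL * (a Z) ≤ (a+1) SL SG
  have c1 : SGL * (a * Z) ≤ (a + 1) * SL * SG := by nlinarith [hii, hiii]
  have hpos : 0 < a * Z + SL := by positivity
  have c2 : (a * SGG * Z) * (a * Z + SL) ≤ ((a + 1) * SG ^ 2) * (a * Z + SL) := by
    have haZ : 0 < a * Z := by positivity
    calc (a * SGG * Z) * (a * Z + SL) = (a * Z) * (SGG * (a * Z + SL)) := by ring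
      _ ≤ (a * Z) * (((a + 1) * SG + SGL) * SG) := mul_le_mul_of_nonneg_left hi haZ.le
      _ = SG * ((a+1) * SG * (a * Z) + SGL * (a * Z)) := by ring
      _ ≤ SG * ((a+1) * SG * (a * Z) + (a + 1) * SL * SG) := by
          apply mul_le_mul_of_nonneg_left _ hSGpos.le
          linarith
      _ = _ := by ring
  exact le_of_mul_le_mul_right c2 hpos

/-- The common inequality (*): for `Ψ(l) = l w(l)`, `w ≥ 0` antitone,
`(S(Ψ m) - S(Ψ D)) S(G) ≤ S(Ψ) S(G m)`. -/
theorem star (ha : 0 < a) (hq0 : 0 < q)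
    (hP : ∀ l, 0 ≤ P l) (hsupp : P M = 0)
    (hrec : ∀ l : ℕ, ((l:ℝ) + 1) * P (l+1) = (a + l) * q ^ l * ν l * P l)
    (hν0 : ∀ l, 0 ≤ ν l) (hνa : Antitone ν)
    (w : ℕ → ℝ) (hw0 : ∀ l, 0 ≤ w (l+1)) (hwa : ∀ l k, l ≤ k → w (k+1) ≤ w (l+1))
    (m : ℕ → ℝ) (hm : ∀ l k, l < k → k < M → m l ≤ m k) :
    ((∑ l ∈ range M, P l * ((l:ℝ) * w l * m l))
        - ∑ l ∈ range M, P l * ((l:ℝ) * w l * (m l - m (l-1)))) *
        (∑ l ∈ range M, P l * ((a + l) * q ^ l))
      ≤ (∑ l ∈ range M, P l * ((l:ℝ) * w l)) *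
        (∑ l ∈ range M, P l * ((a + l) * q ^ l) * m l) := by
  have hG0 : ∀ l : ℕ, 0 < (a + l) * q ^ l := fun l => by positivity
  have e1 := shift_sum (a := a) (q := q) hsupp hrec w (fun l => m (l-1))
  have e2 := shift_sum (a := a) (q := q) hsupp hrec w (fun _ => 1)
  have e3 : (∑ l ∈ range M, P l * ((l:ℝ) * w l * m l))
        - ∑ l ∈ range M, P l * ((l:ℝ) * w l * (m l - m (l-1)))
        = ∑ l ∈ range M, P l * ((l:ℝ) * w l * m (l-1)) := by
    rw [← Finset.sum_sub_distrib]; apply Finset.sum_congr rfl; intro l _; ring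
  rw [e3, e1]
  simp only [mul_one] at e2
  rw [e2]
  simp only [Nat.add_sub_cancel]
  have := cheb_mono M (fun l => P l * ((a + l) * q ^ l))
    (fun l => P l * ((a + l) * q ^ l) * (ν l * w (l+1))) m
    (by
      intro l k hlk _
      have h1 : 0 ≤ P l * ((a + l) * q ^ l) * (P k * ((a + k) * q ^ k)) :=
        mul_nonneg (mul_nonneg (hP _) (hG0 _).le) (mul_nonneg (hP _) (hG0 _).le)
      have h2 : ν k * w (k+1) ≤ ν l * w (l+1) :=
        mul_le_mul (hνa hlk.le) (hwa l k hlk.le) (hw0 k) (hν0 l)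
      have := mul_le_mul_of_nonneg_left h2 h1
      calc P l * ((a + l) * q ^ l) * (P k * ((a + k) * q ^ k) * (ν k * w (k+1)))
          = P l * ((a + l) * q ^ l) * (P k * ((a + k) * q ^ k)) * (ν k * w (k+1)) := by ring
        _ ≤ _ := this
        _ = _ := by ring) hm
  linarith

theorem geo_aux (hq0 : 0 < q) (hq1 : q ≤ 1) (n : ℕ) : (n:ℝ) * q ^ n * (1 - q) ≤ 1 - q ^ n := by
  induction n with
  | zero => simp
  | succ n ih =>
    have h1 : 0 ≤ (1 - q) * q ^ n * (((n:ℝ) + 1) * (1 - q)) := by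
      have : 0 ≤ 1 - q := by linarith
      positivity
    push_cast
    rw [pow_succ]
    nlinarith [ih, h1]

/-- the weight `w l = (1 - q^l)/l`. -/
theorem w_anti (hq0 : 0 < q) (hq1 : q ≤ 1) :
    ∀ l k : ℕ, l ≤ k → (1 - q ^ (k+1)) / ((k+1 : ℕ) : ℝ) ≤ (1 - q ^ (l+1)) / ((l+1 : ℕ) : ℝ) := by
  have hanti : Antitone (fun l : ℕ => (1 - q ^ (l+1)) / ((l+1 : ℕ) : ℝ)) := by
    apply antitone_nat_of_succ_le
    intro n
    have h := geo_aux hq0 hq1 (n+1)
    rw [div_le_div_iff₀ (by positivity) (by positivity)]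
    push_cast at h ⊢
    rw [pow_succ q (n+1)]
    nlinarith [h]
  intro l k hlk
  exact hanti hlk

theorem one_sub_pow_nonneg (hq0 : 0 < q) (hq1 : q ≤ 1) (n : ℕ) : 0 ≤ 1 - q ^ n :=
  sub_nonneg.2 (pow_le_one₀ hq0.le hq1)

/-- (*) specialised. -/
theorem star' (ha : 0 < a) (hq0 : 0 < q) (hq1 : q ≤ 1)
    (hP : ∀ l, 0 ≤ P l) (hsupp : P M = 0)
    (hrec : ∀ l : ℕ, ((l:ℝ) + 1) * P (l+1) = (a + l) * q ^ l * ν l * P l)
    (hν0 : ∀ l, 0 ≤ ν l) (hνa : Antitone ν)
    (m : ℕ → ℝ) (hm : ∀ l, l + 1 < M → m l ≤ m (l+1))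
    (hD : ∀ l, l + 1 < M → (1 - q ^ (l+1)) * (m (l+1) - m l) ≤ 1) :
    (∑ l ∈ range M, P l * ((1 - q ^ l) * m l)) * (∑ l ∈ range M, P l * ((a + l) * q ^ l))
      ≤ (∑ l ∈ range M, P l * (1 - q ^ l)) * (∑ l ∈ range M, P l * ((a + l) * q ^ l) * m l)
        + (∑ l ∈ range M, P l) * (∑ l ∈ range M, P l * ((a + l) * q ^ l)) := by
  have hmm : ∀ l k, l < k → k < M → m l ≤ m k := by
    intro l k hlk hk
    induction k, hlk using Nat.le_induction with
    | base => exact hm l hk
    | succ k hk1 ih => exact (ih (by omega)).trans (hm k hk)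
  have hw : ∀ l : ℕ, (l:ℝ) * ((1 - q ^ l) / (l:ℝ)) = 1 - q ^ l := by
    intro l
    cases l with
    | zero => simp
    | succ l => field_simp
  have h := star (w := fun l => (1 - q ^ l) / (l:ℝ)) ha hq0 hP hsupp hrec hν0 hνa
    (fun l => div_nonneg (one_sub_pow_nonneg hq0 hq1 _) (Nat.cast_nonneg _))
    (w_anti hq0 hq1) m hmm
  simp only [hw] at h
  have hD' : ∑ l ∈ range M, P l * ((1 - q ^ l) * (m l - m (l-1))) ≤ ∑ l ∈ range M, P l := by
    apply Finset.sum_le_sum
    intro l hl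
    rw [Finset.mem_range] at hl
    cases l with
    | zero => simp; exact hP 0
    | succ l =>
      have := mul_le_mul_of_nonneg_left (hD l hl) (hP (l+1))
      simpa using this
  have hSG : 0 ≤ ∑ l ∈ range M, P l * ((a + l) * q ^ l) :=
    Finset.sum_nonneg (fun l _ => mul_nonneg (hP l) (by positivity))
  nlinarith [mul_le_mul_of_nonneg_right hD' hSG]

/-- Core 2, lower bound: `X ≥ -1`. -/
theorem core2_lower (ha : 0 < a) (hq0 : 0 < q) (hq1 : q ≤ 1)
    (hP : ∀ l, 0 ≤ P l) (hsupp : P M = 0)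
    (hrec : ∀ l : ℕ, ((l:ℝ) + 1) * P (l+1) = (a + l) * q ^ l * ν l * P l)
    (hν0 : ∀ l, 0 ≤ ν l) (hνa : Antitone ν)
    (m : ℕ → ℝ) (hm : ∀ l, l + 1 < M → m l ≤ m (l+1))
    (hD : ∀ l, l + 1 < M → (1 - q ^ (l+1)) * (m (l+1) - m l) ≤ 1) :
    (∑ l ∈ range M, P l * m l) * (∑ l ∈ range M, P l * ((a + l) * q ^ l))
      ≤ (∑ l ∈ range M, P l) * (∑ l ∈ range M, P l * ((a + l) * q ^ l) * m l)
        + (∑ l ∈ range M, P l) * (∑ l ∈ range M, P l * ((a + l) * q ^ l)) := by
  have hmm : ∀ l k, l < k → k < M → m l ≤ m k := by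
    intro l k hlk hk
    induction k, hlk using Nat.le_induction with
    | base => exact hm l hk
    | succ k hk1 ih => exact (ih (by omega)).trans (hm k hk)
  have h := star' ha hq0 hq1 hP hsupp hrec hν0 hνa m hm hD
  have h2 := cheb_mono M (fun l => P l * ((a + l) * q ^ l)) (fun l => P l * q ^ l) m
    (by
      intro l k hlk _
      have h1 : 0 ≤ P l * P k * (q ^ l * q ^ k) :=
        mul_nonneg (mul_nonneg (hP _) (hP _)) (by positivity)
      have h2 : a + (l:ℝ) ≤ a + k := by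
        have : (l:ℝ) ≤ k := by exact_mod_cast hlk.le
        linarith
      have := mul_le_mul_of_nonneg_left h2 h1
      calc P l * ((a + l) * q ^ l) * (P k * q ^ k) = P l * P k * (q ^ l * q ^ k) * (a + l) := by ring
        _ ≤ _ := this
        _ = _ := by ring) hmm
  have e1 : ∑ l ∈ range M, P l * ((1 - q ^ l) * m l)
      = ∑ l ∈ range M, P l * m l - ∑ l ∈ range M, P l * q ^ l * m l := by
    rw [← Finset.sum_sub_distrib]; apply Finset.sum_congr rfl; intro l _; ring
  have e2 : ∑ l ∈ range M, P l * (1 - q ^ l)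
      = ∑ l ∈ range M, P l - ∑ l ∈ range M, P l * q ^ l := by
    rw [← Finset.sum_sub_distrib]; apply Finset.sum_congr rfl; intro l _; ring
  rw [e1, e2] at h
  nlinarith [h, h2]

theorem bern (hq0 : 0 < q) (n : ℕ) : 1 - (n:ℝ) * (1 - q) ≤ q ^ n := by
  have h := one_add_mul_le_pow (show (-2:ℝ) ≤ q - 1 by linarith) n
  have e : (1:ℝ) + (q - 1) = q := by ring
  rw [e] at h
  linarith

/-- Core 2, upper bound: `a X ≤ max (σ - a) 0`. -/
theorem core2_upper (ha : 0 < a) (hq0 : 0 < q) (hq1 : q < 1)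
    (hP : ∀ l, 0 ≤ P l) (hsupp : P M = 0)
    (hrec : ∀ l : ℕ, ((l:ℝ) + 1) * P (l+1) = (a + l) * q ^ l * ν l * P l)
    (hν0 : ∀ l, 0 ≤ ν l) (hνa : Antitone ν)
    (m : ℕ → ℝ) (hm : ∀ l, l + 1 < M → m l ≤ m (l+1))
    (hD : ∀ l, l + 1 < M → (1 - q ^ (l+1)) * (m (l+1) - m l) ≤ 1)
    (σ c : ℝ) (hσ : σ * (1 - q) = q) (hc : (c = 0 ∧ σ ≤ a) ∨ (c = σ - a ∧ 0 < c)) :
    a * (∑ l ∈ range M, P l) * (∑ l ∈ range M, P l * ((a + l) * q ^ l) * m l)
      ≤ a * (∑ l ∈ range M, P l * m l) * (∑ l ∈ range M, P l * ((a + l) * q ^ l))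
        + c * ((∑ l ∈ range M, P l) * (∑ l ∈ range M, P l * ((a + l) * q ^ l))) := by
  have hmm : ∀ l k, l < k → k < M → m l ≤ m k := by
    intro l k hlk hk
    induction k, hlk using Nat.le_induction with
    | base => exact hm l hk
    | succ k hk1 ih => exact (ih (by omega)).trans (hm k hk)
  have hc0 : 0 ≤ c := by rcases hc with ⟨h, _⟩ | ⟨_, h⟩ <;> linarith
  have hq1' : 0 < 1 - q := by linarith
  have h := star' ha hq0 hq1.le hP hsupp hrec hν0 hνa m hm hD
  have hden : ∀ l : ℕ, 0 < a + c * (1 - q ^ l) := fun l =>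
    add_pos_of_pos_of_nonneg ha (mul_nonneg hc0 (one_sub_pow_nonneg hq0 hq1.le l))
  -- ratio antitone
  have hratio : Antitone (fun l : ℕ => ((a + l) * q ^ l) / (a + c * (1 - q ^ l))) := by
    apply antitone_nat_of_succ_le
    intro l
    rw [div_le_div_iff₀ (hden _) (hden _)]
    have hb := bern hq0 l
    have hl0 : (0:ℝ) ≤ l := Nat.cast_nonneg l
    have hql : 0 < q ^ l := by positivity
    have key : (a + c) * (q - (1 - q) * (a + l)) ≤ c * (q ^ l * q) := by
      have e1 : q - (1 - q) * (a + l) = (1 - q) * (σ - a - l) := by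
        linear_combination -hσ
      rw [e1]
      rcases hc with ⟨h0, hs⟩ | ⟨h0, hs⟩
      · rw [h0, zero_mul, add_zero]
        apply mul_nonpos_of_nonneg_of_nonpos ha.le
        apply mul_nonpos_of_nonneg_of_nonpos hq1'.le
        linarith
      · have e2 : (a + c) * ((1 - q) * (σ - a - l)) = q * (c - l) := by
          have : a + c = σ := by linarith
          have h3 : σ - a - l = c - l := by linarith
          rw [this, h3]; linear_combination (c - l) * hσ
        rw [e2]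
        have h4 : c * (1 - q) ≤ 1 := by
          have : c ≤ σ := by linarith
          have := mul_le_mul_of_nonneg_right this hq1'.le
          linarith
        have h5 : c - l ≤ c * q ^ l := by
          have h6 := mul_le_mul_of_nonneg_left hb hc0
          nlinarith [mul_le_mul_of_nonneg_left h4 hl0]
        nlinarith
    push_cast
    rw [pow_succ]
    have hk := mul_le_mul_of_nonneg_left key hql.le
    nlinarith [hk]
  have h2 := cheb_mono M (fun l => P l * (a + c * (1 - q ^ l)))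
    (fun l => P l * ((a + l) * q ^ l)) m
    (by
      intro l k hlk _
      have h1 : 0 ≤ P l * P k := mul_nonneg (hP _) (hP _)
      have h2 := hratio hlk.le
      simp only at h2
      rw [div_le_div_iff₀ (hden _) (hden _)] at h2
      have := mul_le_mul_of_nonneg_left h2 h1
      calc P l * (a + c * (1 - q ^ l)) * (P k * ((a + k) * q ^ k))
          = P l * P k * ((a + k) * q ^ k * (a + c * (1 - q ^ l))) := by ring
        _ ≤ _ := this
        _ = _ := by ring) hmm
  have e1 : ∑ l ∈ range M, P l * (a + c * (1 - q ^ l)) * m l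
      = a * (∑ l ∈ range M, P l * m l) + c * ∑ l ∈ range M, P l * ((1 - q ^ l) * m l) := by
    rw [Finset.mul_sum, Finset.mul_sum, ← Finset.sum_add_distrib]
    apply Finset.sum_congr rfl; intro l _; ring
  have e2 : ∑ l ∈ range M, P l * (a + c * (1 - q ^ l))
      = a * (∑ l ∈ range M, P l) + c * ∑ l ∈ range M, P l * (1 - q ^ l) := by
    rw [Finset.mul_sum, Finset.mul_sum, ← Finset.sum_add_distrib]
    apply Finset.sum_congr rfl; intro l _; ring
  rw [e1, e2] at h2
  have h3 := mul_le_mul_of_nonneg_left h hc0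
  nlinarith [h2, h3]

end step

end Polymer903
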