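import Mathlib
import Pool.Agent.Helper903.Polymer.Core

/-!
# Soft polymer kernel: the two core inequalities for the power iterates
-/

namespace Polymer903

open Finset

/-- The kernel `C(i+j,i) exp(r(i+j+1) - β (i+j+1)^2)`. -/
noncomputable def ker (β r : ℝ) (i j : ℕ) : ℝ :=
  ((i+j).choose i : ℝ) * Real.exp (r * ((i:ℝ) + j + 1) - β * ((i:ℝ) + j + 1) ^ 2)

/-- The power iterates of the kernel truncated to the box `j < M`, started from `1`. -/
noncomputable def X (β : ℝ) (M : ℕ) : ℕ → ℝ → ℕ → ℝ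
  | 0, _, _ => 1
  | n+1, r, i => ∑ j ∈ range M, ker β r i j * X β M n r j

variable {β r : ℝ} {M : ℕ}

theorem X_zero (i : ℕ) : X β M 0 r i = 1 := rfl
theorem X_succ (n i : ℕ) : X β M (n+1) r i = ∑ j ∈ range M, ker β r i j * X β M n r j := rfl

theorem ker_pos (i j : ℕ) : 0 < ker β r i j := by
  unfold ker
  have : 0 < (i+j).choose i := Nat.choose_pos (Nat.le_add_right _ _)
  have : (0:ℝ) < ((i+j).choose i : ℝ) := by exact_mod_cast this
  positivity

theorem ker_comm (i j : ℕ) : ker β r i j = ker β r j i := by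
  unfold ker
  have h : (i+j).choose i = (j+i).choose j := by
    rw [add_comm j i, ← Nat.choose_symm_add]
  rw [h, add_comm (i:ℝ) (j:ℝ)]

theorem X_pos (hM : 0 < M) (n i : ℕ) : 0 < X β M n r i := by
  induction n generalizing i with
  | zero => simp [X_zero]
  | succ n ih =>
    rw [X_succ]
    exact Finset.sum_pos (fun j _ => mul_pos (ker_pos i j) (ih j)) ⟨0, Finset.mem_range.2 hM⟩

/-- one step in the first index -/
theorem ker_succ_left (i l : ℕ) :
    ker β r (i+1) l = Real.exp (r - β * (2 * i + 3)) / ((i:ℝ) + 1) *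
      ((((i:ℝ) + 1) + l) * Real.exp (-2 * β) ^ l) * ker β r i l := by
  unfold ker
  have h1 : ((i + 1 + l).choose (i+1) : ℝ) * ((i:ℝ) + 1) = ((i:ℝ) + 1 + l) * ((i+l).choose i : ℝ) := by
    have := Nat.add_one_mul_choose_eq (i+l) i
    have h2 : i + l + 1 = i + 1 + l := by omega
    rw [h2] at this
    have h3 : (((i + 1 + l) * (i+l).choose i : ℕ) : ℝ) = (((i+1+l).choose (i+1) * (i+1) : ℕ) : ℝ) := by
      exact_mod_cast this
    push_cast at h3
    linarith
  have hi : (0:ℝ) < (i:ℝ) + 1 := by positivity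
  have h2 : ((i + 1 + l).choose (i+1) : ℝ) = ((i:ℝ) + 1 + l) * ((i+l).choose i : ℝ) / ((i:ℝ)+1) := by
    rw [eq_div_iff hi.ne']; exact h1
  rw [h2]
  have h3 : Real.exp (r * (((i+1 : ℕ):ℝ) + l + 1) - β * (((i+1 : ℕ):ℝ) + l + 1) ^ 2)
      = Real.exp (r - β * (2 * i + 3)) * Real.exp (-2 * β) ^ l *
        Real.exp (r * ((i:ℝ) + l + 1) - β * ((i:ℝ) + l + 1) ^ 2) := by
    rw [← Real.exp_nat_mul, ← Real.exp_add, ← Real.exp_add]
    congr 1
    push_cast; ring
  rw [h3]
  field_simp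

theorem ker_succ_right (i l : ℕ) :
    ((l:ℝ) + 1) * ker β r i (l+1) = (((i:ℝ) + 1) + l) * Real.exp (-2 * β) ^ l *
      Real.exp (r - β * (2 * i + 3)) * ker β r i l := by
  rw [ker_comm, ker_succ_left, ker_comm l i]
  have hl : (0:ℝ) < (l:ℝ) + 1 := by positivity
  have h3 : Real.exp (r - β * (2 * l + 3)) * Real.exp (-2 * β) ^ i
      = Real.exp (-2 * β) ^ l * Real.exp (r - β * (2 * i + 3)) := by
    rw [← Real.exp_nat_mul, ← Real.exp_nat_mul, ← Real.exp_add, ← Real.exp_add]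
    congr 1
    ring
  generalize Real.exp (-2 * β) = Q at *
  generalize Real.exp (r - β * (2 * l + 3)) = E1 at *
  generalize Real.exp (r - β * (2 * i + 3)) = E2 at *
  field_simp
  linear_combination (ker β r i l) * ((l:ℝ) + 1 + i) * h3

/-- The weights `P` and the ratio `ν` for a positive sequence `u`. -/
noncomputable def wP (β r : ℝ) (M : ℕ) (u : ℕ → ℝ) (i l : ℕ) : ℝ :=
  if l < M then ker β r i l * u l else 0

noncomputable def wν (β r : ℝ) (M : ℕ) (u : ℕ → ℝ) (i l : ℕ) : ℝ :=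
  if l + 1 < M then Real.exp (r - β * (2 * i + 3)) * (u (l+1) / u l) else 0

theorem wP_nonneg (u : ℕ → ℝ) (hu : ∀ l, 0 < u l) (i l : ℕ) : 0 ≤ wP β r M u i l := by
  unfold wP
  split_ifs
  · exact (mul_pos (ker_pos _ _) (hu l)).le
  · exact le_rfl

theorem wP_zero (hM : 0 < M) (u : ℕ → ℝ) (hu : ∀ l, 0 < u l) (i : ℕ) : 0 < wP β r M u i 0 := by
  unfold wP
  rw [if_pos hM]
  exact mul_pos (ker_pos _ _) (hu 0)

theorem wP_supp (u : ℕ → ℝ) (i : ℕ) : wP β r M u i M = 0 := by
  unfold wP; simp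

theorem wP_rec (u : ℕ → ℝ) (hu : ∀ l, 0 < u l) (i l : ℕ) :
    ((l:ℝ) + 1) * wP β r M u i (l+1) =
      (((i:ℝ) + 1) + l) * Real.exp (-2 * β) ^ l * wν β r M u i l * wP β r M u i l := by
  unfold wP wν
  by_cases h : l + 1 < M
  · have h' : l < M := by omega
    rw [if_pos h, if_pos h, if_pos h']
    have hk := ker_succ_right (β := β) (r := r) i l
    have hul := (hu l).ne'
    have e : u (l+1) = u (l+1) / u l * u l := by field_simp
    rw [← mul_assoc, hk]
    rw [show Real.exp (r - β * (2 * ↑i + 3)) * (u (l + 1) / u l) = 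
      Real.exp (r - β * (2 * ↑i + 3)) * (u (l + 1) / u l) from rfl]
    nth_rewrite 1 [e]
    ring
  · rw [if_neg h, if_neg h]; ring

theorem wν_nonneg (u : ℕ → ℝ) (hu : ∀ l, 0 < u l) (i l : ℕ) : 0 ≤ wν β r M u i l := by
  unfold wν
  split_ifs
  · exact (mul_pos (Real.exp_pos _) (div_pos (hu _) (hu _))).le
  · exact le_rfl

theorem wν_anti (u : ℕ → ℝ) (hu : ∀ l, 0 < u l) (hlc : ∀ l, u l * u (l+2) ≤ u (l+1) ^ 2) (i : ℕ) :
    Antitone (wν β r M u i) := by
  apply antitone_nat_of_succ_le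
  intro l
  by_cases h : l + 1 + 1 < M
  · have h' : l + 1 < M := by omega
    unfold wν
    rw [if_pos h, if_pos h']
    apply mul_le_mul_of_nonneg_left _ (Real.exp_pos _).le
    rw [div_le_div_iff₀ (hu _) (hu _)]
    have := hlc l
    have e : l + 1 + 1 = l + 2 := rfl
    rw [e]; nlinarith
  · have : wν β r M u i (l+1) = 0 := by unfold wν; rw [if_neg h]
    rw [this]
    exact wν_nonneg u hu i l

theorem wP_sum (u : ℕ → ℝ) (i : ℕ) (g : ℕ → ℝ) :
    ∑ l ∈ range M, wP β r M u i l * g l = ∑ l ∈ range M, ker β r i l * u l * g l := by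
  apply Finset.sum_congr rfl
  intro l hl
  unfold wP
  rw [if_pos (Finset.mem_range.1 hl)]

/-- log-concavity is preserved in one step. -/
theorem logconcave_step (hβ : 0 < β) (hM : 0 < M) (u : ℕ → ℝ) (hu : ∀ l, 0 < u l)
    (hlc : ∀ l, u l * u (l+2) ≤ u (l+1) ^ 2) (i : ℕ) :
    (∑ l ∈ range M, ker β r i l * u l) * (∑ l ∈ range M, ker β r (i+2) l * u l) ≤
      (∑ l ∈ range M, ker β r (i+1) l * u l) ^ 2 := by
  have ha : (0:ℝ) < (i:ℝ) + 1 := by positivity
  have hq0 := Real.exp_pos (-2 * β)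
  have hq1 : Real.exp (-2 * β) ≤ 1 := by
    rw [Real.exp_le_one_iff]; linarith
  have h := core1 (M := M) (P := wP β r M u i) (ν := wν β r M u i) ha hq0 hq1
    (wP_nonneg u hu i) (wP_zero hM u hu i) hM (wP_supp u i) (wP_rec u hu i)
    (wν_nonneg u hu i) (wν_anti u hu hlc i)
  set E := Real.exp (r - β * (2 * i + 3)) with hE
  set Q := Real.exp (-2 * β) with hQ
  set a := (i:ℝ) + 1 with haa
  have hEpos : 0 < E := Real.exp_pos _
  set Z := ∑ l ∈ range M, wP β r M u i l with hZ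
  set SG := ∑ l ∈ range M, wP β r M u i l * ((a + l) * Q ^ l) with hSG
  set SGG := ∑ l ∈ range M, wP β r M u i l * ((a + l) * Q ^ l * ((a + l + 1) * Q ^ (l + 1))) with hSGG
  have e0 : ∑ l ∈ range M, ker β r i l * u l = Z := by
    have := wP_sum (β := β) (r := r) (M := M) u i (fun _ => 1)
    simpa using this.symm
  have e1 : ∑ l ∈ range M, ker β r (i+1) l * u l = E / a * SG := by
    rw [hSG, wP_sum, Finset.mul_sum]
    apply Finset.sum_congr rfl
    intro l _
    rw [ker_succ_left]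
    ring
  have e2 : ∑ l ∈ range M, ker β r (i+2) l * u l = E / a * (E / (a + 1)) * SGG := by
    rw [hSGG, wP_sum, Finset.mul_sum]
    apply Finset.sum_congr rfl
    intro l _
    rw [show i + 2 = (i+1)+1 from rfl, ker_succ_left, ker_succ_left]
    have h5 : Real.exp (r - β * (2 * ((i+1 : ℕ):ℝ) + 3)) = E * Q := by
      rw [hE, hQ, ← Real.exp_add]; congr 1; push_cast; ring
    rw [h5, ← hE, ← hQ, ← haa]
    have h6 : ((i+1 : ℕ):ℝ) = a := by rw [haa]; push_cast; ring
    rw [h6, pow_succ]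
    ring
  rw [e0, e1, e2]
  have h7 : (E / a * SG) ^ 2 - Z * (E / a * (E / (a + 1)) * SGG)
      = E ^ 2 / (a ^ 2 * (a + 1)) * ((a + 1) * SG ^ 2 - a * SGG * Z) := by
    field_simp
  have h8 : 0 ≤ E ^ 2 / (a ^ 2 * (a + 1)) * ((a + 1) * SG ^ 2 - a * SGG * Z) :=
    mul_nonneg (by positivity) (sub_nonneg.2 h)
  linarith

/-- **Core 1.** All power iterates are log-concave. -/
theorem X_logconcave (hβ : 0 < β) (hM : 0 < M) (n i : ℕ) :
    X β M n r i * X β M n r (i+2) ≤ X β M n r (i+1) ^ 2 := by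
  induction n generalizing i with
  | zero => simp [X_zero]
  | succ n ih => exact logconcave_step hβ hM _ (X_pos hM n) ih i

end Polymer903
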