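import Mathlib
import Pool.Agent.Helper903.Polymer.Iter

/-!
# Soft polymer kernel: monotone response of the power iterates (Core 2)
-/

namespace Polymer903

open Finset

variable {β r : ℝ} {M : ℕ}

/-- half logarithmic derivative of `e^{ri} X^n_i(r)`. -/
noncomputable def mm (β : ℝ) (M : ℕ) : ℕ → ℝ → ℕ → ℝ
  | 0, _, i => (i:ℝ) / 2
  | n+1, r, i => (i:ℝ) + 1 / 2 +
      (∑ j ∈ range M, ker β r i j * X β M n r j * mm β M n r j) / X β M (n+1) r i

theorem mm_succ (n i : ℕ) : mm β M (n+1) r i = (i:ℝ) + 1 / 2 +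
      (∑ j ∈ range M, ker β r i j * X β M n r j * mm β M n r j) / X β M (n+1) r i := rfl

theorem ker_hasDeriv (i j : ℕ) :
    HasDerivAt (fun r => ker β r i j) (ker β r i j * ((i:ℝ) + j + 1)) r := by
  unfold ker
  have h1 : HasDerivAt (fun r : ℝ => r * ((i:ℝ) + j + 1) - β * ((i:ℝ) + j + 1) ^ 2)
      ((i:ℝ) + j + 1) r := by
    have := ((hasDerivAt_id r).mul_const ((i:ℝ) + j + 1)).sub_const (β * ((i:ℝ) + j + 1) ^ 2)
    simpa using this
  have h2 := (h1.exp).const_mul ((i+j).choose i : ℝ)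
  exact h2.congr_deriv (by ring)

theorem X_hasDeriv (hM : 0 < M) (n i : ℕ) :
    HasDerivAt (fun r => X β M n r i) (X β M n r i * (2 * mm β M n r i - i)) r := by
  induction n generalizing i with
  | zero =>
    have e : X β M 0 r i * (2 * mm β M 0 r i - i) = 0 := by simp only [mm]; ring
    rw [e]
    exact hasDerivAt_const r 1
  | succ n ih =>
    have h1 : HasDerivAt (fun r => ∑ j ∈ range M, ker β r i j * X β M n r j)
        (∑ j ∈ range M, (ker β r i j * ((i:ℝ) + j + 1) * X β M n r j +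
          ker β r i j * (X β M n r j * (2 * mm β M n r j - j)))) r := by
      apply HasDerivAt.fun_sum
      intro j _
      exact (ker_hasDeriv i j).mul (ih j)
    have hX := X_pos (β := β) (r := r) hM (n+1) i
    have h2 : X β M (n+1) r i * (2 * mm β M (n+1) r i - i) =
        (∑ j ∈ range M, (ker β r i j * ((i:ℝ) + j + 1) * X β M n r j +
          ker β r i j * (X β M n r j * (2 * mm β M n r j - j)))) := by
      rw [mm_succ]
      have e : X β M (n+1) r i * (2 * ((i:ℝ) + 1 / 2 +
        (∑ j ∈ range M, ker β r i j * X β M n r j * mm β M n r j) / X β M (n+1) r i) - i)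
        = ((i:ℝ) + 1) * X β M (n+1) r i + 2 *
          ∑ j ∈ range M, ker β r i j * X β M n r j * mm β M n r j := by
        field_simp; ring
      rw [e, X_succ, Finset.mul_sum, Finset.mul_sum, ← Finset.sum_add_distrib]
      apply Finset.sum_congr rfl
      intro j _; ring
    rw [h2]
    exact h1

/-- the invariant class is preserved. -/
theorem mm_step (hβ : 0 < β) (hM : 0 < M) (u : ℕ → ℝ) (hu : ∀ l, 0 < u l)
    (hlc : ∀ l, u l * u (l+2) ≤ u (l+1) ^ 2) (m : ℕ → ℝ)
    (hm : ∀ l, l + 1 < M → m l ≤ m (l+1))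
    (hD : ∀ l, l + 1 < M → (1 - Real.exp (-2 * β) ^ (l+1)) * (m (l+1) - m l) ≤ 1)
    (σ : ℝ) (hσ : σ * (1 - Real.exp (-2 * β)) = Real.exp (-2 * β)) (i : ℕ) :
    0 ≤ 1 + (∑ l ∈ range M, ker β r (i+1) l * u l * m l) / (∑ l ∈ range M, ker β r (i+1) l * u l)
        - (∑ l ∈ range M, ker β r i l * u l * m l) / (∑ l ∈ range M, ker β r i l * u l) ∧
    ((i:ℝ)+1) * (1 + (∑ l ∈ range M, ker β r (i+1) l * u l * m l) /
        (∑ l ∈ range M, ker β r (i+1) l * u l)
        - (∑ l ∈ range M, ker β r i l * u l * m l) / (∑ l ∈ range M, ker β r i l * u l)) ≤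
      max σ ((i:ℝ)+1) := by
  have ha : (0:ℝ) < (i:ℝ) + 1 := by positivity
  have hq0 := Real.exp_pos (-2 * β)
  have hq1 : Real.exp (-2 * β) < 1 := by
    rw [Real.exp_lt_one_iff]; linarith
  set E := Real.exp (r - β * (2 * i + 3)) with hE
  have hEpos : 0 < E := Real.exp_pos _
  have hlow := core2_lower (M := M) (P := wP β r M u i) (ν := wν β r M u i) ha hq0 hq1.le
    (wP_nonneg u hu i) (wP_supp u i) (wP_rec u hu i)
    (wν_nonneg u hu i) (wν_anti u hu hlc i) m hm hD
  have hup : ∃ c : ℝ, ((i:ℝ)+1) + c = max σ ((i:ℝ)+1) ∧ 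
      ((c = 0 ∧ σ ≤ (i:ℝ)+1) ∨ (c = σ - ((i:ℝ)+1) ∧ 0 < c)) := by
    by_cases h : σ ≤ (i:ℝ)+1
    · exact ⟨0, by rw [max_eq_right h, add_zero], Or.inl ⟨rfl, h⟩⟩
    · push Not at h
      exact ⟨σ - ((i:ℝ)+1), by rw [max_eq_left h.le]; ring, Or.inr ⟨rfl, by linarith⟩⟩
  obtain ⟨c, hc1, hc2⟩ := hup
  have hupp := core2_upper (M := M) (P := wP β r M u i) (ν := wν β r M u i) ha hq0 hq1
    (wP_nonneg u hu i) (wP_supp u i) (wP_rec u hu i)
    (wν_nonneg u hu i) (wν_anti u hu hlc i) m hm hD σ c hσ hc2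
  rw [← hc1]
  set Q := Real.exp (-2 * β) with hQ
  set a := (i:ℝ) + 1 with haa
  have e0 : ∑ l ∈ range M, ker β r i l * u l = ∑ l ∈ range M, wP β r M u i l := by
    have := wP_sum (β := β) (r := r) (M := M) u i (fun _ => 1)
    simpa using this.symm
  have e0' : ∑ l ∈ range M, ker β r i l * u l * m l = ∑ l ∈ range M, wP β r M u i l * m l :=
    (wP_sum (β := β) (r := r) (M := M) u i m).symm
  have e1 : ∑ l ∈ range M, ker β r (i+1) l * u l =
      E / a * ∑ l ∈ range M, wP β r M u i l * ((a + l) * Q ^ l) := by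
    rw [wP_sum, Finset.mul_sum]
    apply Finset.sum_congr rfl
    intro l _
    rw [ker_succ_left]
    ring
  have e1' : ∑ l ∈ range M, ker β r (i+1) l * u l * m l =
      E / a * ∑ l ∈ range M, wP β r M u i l * ((a + l) * Q ^ l) * m l := by
    have : ∑ l ∈ range M, wP β r M u i l * ((a + l) * Q ^ l) * m l
      = ∑ l ∈ range M, wP β r M u i l * (((a + l) * Q ^ l) * m l) := by
      apply Finset.sum_congr rfl; intro l _; ring
    rw [this, wP_sum, Finset.mul_sum]
    apply Finset.sum_congr rfl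
    intro l _
    rw [ker_succ_left]
    ring
  have hZ : 0 < ∑ l ∈ range M, ker β r i l * u l :=
    Finset.sum_pos (fun j _ => mul_pos (ker_pos i j) (hu j)) ⟨0, Finset.mem_range.2 hM⟩
  have hZ1 : 0 < ∑ l ∈ range M, ker β r (i+1) l * u l :=
    Finset.sum_pos (fun j _ => mul_pos (ker_pos _ j) (hu j)) ⟨0, Finset.mem_range.2 hM⟩
  rw [e0] at hZ
  rw [e1] at hZ1
  have hEa : 0 < E / a := div_pos hEpos ha
  have hSG : 0 < ∑ l ∈ range M, wP β r M u i l * ((a + l) * Q ^ l) := by
    exact (mul_pos_iff_of_pos_left hEa).1 hZ1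
  rw [e0, e0', e1, e1', mul_div_mul_left _ _ hEa.ne']
  set Z := ∑ l ∈ range M, wP β r M u i l
  set SG := ∑ l ∈ range M, wP β r M u i l * ((a + l) * Q ^ l)
  set SGm := ∑ l ∈ range M, wP β r M u i l * ((a + l) * Q ^ l) * m l
  set Sm := ∑ l ∈ range M, wP β r M u i l * m l
  have e5 : 1 + SGm / SG - Sm / Z = (Z * SG + Z * SGm - Sm * SG) / (Z * SG) := by
    field_simp
  rw [e5]
  constructor
  · apply div_nonneg _ (mul_pos hZ hSG).le
    linarith
  · rw [← mul_div_assoc, div_le_iff₀ (mul_pos hZ hSG)]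
    nlinarith

theorem q_facts (hβ : 0 < β) : ∃ σ : ℝ, σ = 1 / (Real.exp (2 * β) - 1) ∧ 0 < σ ∧
    σ * (1 - Real.exp (-2 * β)) = Real.exp (-2 * β) := by
  refine ⟨1 / (Real.exp (2 * β) - 1), rfl, ?_, ?_⟩
  · have : 1 < Real.exp (2 * β) := by
      rw [Real.one_lt_exp_iff]; linarith
    have : 0 < Real.exp (2 * β) - 1 := by linarith
    positivity
  · have h1 : 1 < Real.exp (2 * β) := by
      rw [Real.one_lt_exp_iff]; linarith
    have h2 : Real.exp (-2 * β) = 1 / Real.exp (2 * β) := by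
      rw [show -2 * β = -(2 * β) by ring, Real.exp_neg, one_div]
    rw [h2]
    have h3 : Real.exp (2 * β) - 1 ≠ 0 := by linarith
    have h4 : Real.exp (2 * β) ≠ 0 := (Real.exp_pos _).ne'
    field_simp

/-- the invariant class. -/
theorem mm_class (hβ : 0 < β) (hM : 0 < M) (n i : ℕ) :
    0 ≤ mm β M n r (i+1) - mm β M n r i ∧
    (1 - Real.exp (-2 * β) ^ (i+1)) * (mm β M n r (i+1) - mm β M n r i) ≤ 1 ∧
    mm β M n r (i+1) - mm β M n r i ≤ max (1 / (Real.exp (2 * β) - 1)) 1 := by
  have hq0 := Real.exp_pos (-2 * β)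
  have hq1 : Real.exp (-2 * β) < 1 := by
    rw [Real.exp_lt_one_iff]; linarith
  induction n generalizing i with
  | zero =>
    have e : mm β M 0 r (i+1) - mm β M 0 r i = 1 / 2 := by
      simp only [mm]; push_cast; ring
    rw [e]
    refine ⟨by norm_num, ?_, ?_⟩
    · have : 0 < Real.exp (-2 * β) ^ (i+1) := by positivity
      linarith
    · exact le_trans (by norm_num) (le_max_right _ _)
  | succ n ih =>
    obtain ⟨σ, hσe, hσ0, hσ⟩ := q_facts hβ
    have h := mm_step (r := r) hβ hM (X β M n r) (X_pos hM n) (X_logconcave hβ hM n)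
      (mm β M n r) (fun l _ => by linarith [(ih l).1]) (fun l _ => (ih l).2.1) σ hσ i
    have e : mm β M (n+1) r (i+1) - mm β M (n+1) r i =
        1 + (∑ l ∈ range M, ker β r (i+1) l * X β M n r l * mm β M n r l) /
          (∑ l ∈ range M, ker β r (i+1) l * X β M n r l)
        - (∑ l ∈ range M, ker β r i l * X β M n r l * mm β M n r l) /
          (∑ l ∈ range M, ker β r i l * X β M n r l) := by
      rw [mm_succ, mm_succ, X_succ, X_succ]
      push_cast; ring
    rw [← e] at h
    obtain ⟨h1, h2⟩ := h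
    rw [← hσe]
    set D := mm β M (n+1) r (i+1) - mm β M (n+1) r i
    have ha : (0:ℝ) < (i:ℝ) + 1 := by positivity
    have hb := bern hq0 (i+1)
    push_cast at hb
    refine ⟨h1, ?_, ?_⟩
    · have h3 : (1 - Real.exp (-2 * β) ^ (i+1)) * D ≤
          (1 - Real.exp (-2 * β)) * (((i:ℝ)+1) * D) := by
        have : (1 - Real.exp (-2 * β) ^ (i+1)) ≤ ((i:ℝ)+1) * (1 - Real.exp (-2 * β)) := by
          linarith
        have := mul_le_mul_of_nonneg_right this h1
        linarith
      rcases le_total σ ((i:ℝ)+1) with hc | hc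
      · rw [max_eq_right hc] at h2
        have hD1 : D ≤ 1 := by
          by_contra hcon
          push Not at hcon
          nlinarith
        have h4 : 0 < Real.exp (-2 * β) ^ (i+1) := by positivity
        have h5 : 0 ≤ 1 - Real.exp (-2 * β) ^ (i+1) := one_sub_pow_nonneg hq0 hq1.le _
        nlinarith
      · rw [max_eq_left hc] at h2
        have h4 : 0 < 1 - Real.exp (-2 * β) := by linarith
        have := mul_le_mul_of_nonneg_left h2 h4.le
        linarith
    · rcases le_total σ ((i:ℝ)+1) with hc | hc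
      · rw [max_eq_right hc] at h2
        have hD1 : D ≤ 1 := by
          by_contra hcon
          push Not at hcon
          nlinarith
        exact hD1.trans (le_max_right _ _)
      · rw [max_eq_left hc] at h2
        have : D ≤ σ := by
          have hi0 : (0:ℝ) ≤ i := Nat.cast_nonneg i
          nlinarith [mul_nonneg hi0 h1]
        exact this.trans (le_max_left _ _)

/-- log ratio of the weighted iterates. -/
theorem logratio_hasDeriv (hM : 0 < M) (n i : ℕ) :
    HasDerivAt (fun r => r + Real.log (X β M n r (i+1)) - Real.log (X β M n r i))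
      (2 * (mm β M n r (i+1) - mm β M n r i)) r := by
  have h1 := (X_hasDeriv (β := β) (r := r) hM n (i+1)).log (X_pos hM n (i+1)).ne'
  have h2 := (X_hasDeriv (β := β) (r := r) hM n i).log (X_pos hM n i).ne'
  have h3 := ((hasDerivAt_id r).add h1).sub h2
  have p1 := (X_pos (β := β) (r := r) hM n (i+1)).ne'
  have p2 := (X_pos (β := β) (r := r) hM n i).ne'
  rw [mul_div_cancel_left₀ _ p1, mul_div_cancel_left₀ _ p2] at h3
  exact h3.congr_deriv (by push_cast; ring)

/-- **Core 2, logarithmic form.** -/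
theorem logratio_bounds (hβ : 0 < β) (hM : 0 < M) (n i : ℕ) {r r' : ℝ} (hr : r ≤ r') :
    r + Real.log (X β M n r (i+1)) - Real.log (X β M n r i) ≤
      r' + Real.log (X β M n r' (i+1)) - Real.log (X β M n r' i) ∧
    r' + Real.log (X β M n r' (i+1)) - Real.log (X β M n r' i) ≤
      r + Real.log (X β M n r (i+1)) - Real.log (X β M n r i) +
      2 * max (1 / (Real.exp (2 * β) - 1)) 1 * (r' - r) := by
  set f : ℝ → ℝ := fun r => r + Real.log (X β M n r (i+1)) - Real.log (X β M n r i) with hf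
  have hd : ∀ r, HasDerivAt f (2 * (mm β M n r (i+1) - mm β M n r i)) r :=
    fun r => logratio_hasDeriv hM n i
  set C := 2 * max (1 / (Real.exp (2 * β) - 1)) 1 with hC
  have hmono : Monotone f := by
    apply monotone_of_deriv_nonneg (fun r => (hd r).differentiableAt)
    intro r
    rw [(hd r).deriv]
    linarith [(mm_class (r := r) hβ hM n i).1]
  have hmono2 : Monotone (fun r => C * r - f r) := by
    have hd2 : ∀ r, HasDerivAt (fun r => C * r - f r)
        (C * 1 - 2 * (mm β M n r (i+1) - mm β M n r i)) r :=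
      fun r => ((hasDerivAt_id r).const_mul C).sub (hd r)
    apply monotone_of_deriv_nonneg (fun r => (hd2 r).differentiableAt)
    intro r
    rw [(hd2 r).deriv]
    linarith [(mm_class (r := r) hβ hM n i).2.2]
  constructor
  · exact hmono hr
  · have := hmono2 hr
    simp only at this
    change f r' ≤ f r + C * (r' - r)
    linarith

/-- the weighted iterates `e^{ri} X^n_i(r)`. -/
noncomputable def Y (β : ℝ) (M n : ℕ) (r : ℝ) (i : ℕ) : ℝ := Real.exp (r * i) * X β M n r i

theorem Y_pos (hM : 0 < M) (n i : ℕ) : 0 < Y β M n r i :=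
  mul_pos (Real.exp_pos _) (X_pos hM n i)

theorem log_Y (hM : 0 < M) (n i : ℕ) : Real.log (Y β M n r i) = r * i + Real.log (X β M n r i) := by
  unfold Y
  rw [Real.log_mul (Real.exp_pos _).ne' (X_pos hM n i).ne', Real.log_exp]

/-- **Core 2**, lower half (MLR monotonicity in `r`). -/
theorem Y_mlr (hβ : 0 < β) (hM : 0 < M) (n i : ℕ) {r r' : ℝ} (hr : r ≤ r') :
    Y β M n r (i+1) * Y β M n r' i ≤ Y β M n r' (i+1) * Y β M n r i := by
  have h := (logratio_bounds hβ hM n i hr).1
  have p1 := Y_pos (β := β) (r := r) hM n (i+1)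
  have p2 := Y_pos (β := β) (r := r') hM n i
  have p3 := Y_pos (β := β) (r := r') hM n (i+1)
  have p4 := Y_pos (β := β) (r := r) hM n i
  rw [← Real.log_le_log_iff (mul_pos p1 p2) (mul_pos p3 p4), Real.log_mul p1.ne' p2.ne',
    Real.log_mul p3.ne' p4.ne', log_Y hM, log_Y hM, log_Y hM, log_Y hM]
  push_cast
  nlinarith

/-- **Core 2**, upper half. -/
theorem Y_upper (hβ : 0 < β) (hM : 0 < M) (n i : ℕ) {r r' : ℝ} (hr : r ≤ r') :
    Y β M n r' (i+1) * Y β M n r i ≤
      Real.exp (2 * max (1 / (Real.exp (2 * β) - 1)) 1 * (r' - r)) *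
        (Y β M n r (i+1) * Y β M n r' i) := by
  have h := (logratio_bounds hβ hM n i hr).2
  have p1 := Y_pos (β := β) (r := r) hM n (i+1)
  have p2 := Y_pos (β := β) (r := r') hM n i
  have p3 := Y_pos (β := β) (r := r') hM n (i+1)
  have p4 := Y_pos (β := β) (r := r) hM n i
  rw [← Real.log_le_log_iff (mul_pos p3 p4) (mul_pos (Real.exp_pos _) (mul_pos p1 p2)),
    Real.log_mul (Real.exp_pos _).ne' (mul_pos p1 p2).ne', Real.log_exp,
    Real.log_mul p1.ne' p2.ne',
    Real.log_mul p3.ne' p4.ne', log_Y hM, log_Y hM, log_Y hM, log_Y hM]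
  push_cast
  nlinarith

/-- `X`-form of Core 2, lower half. -/
theorem X_mlr (hβ : 0 < β) (hM : 0 < M) (n i : ℕ) {r r' : ℝ} (hr : r ≤ r') :
    X β M n r (i+1) * X β M n r' i ≤
      Real.exp (r' - r) * (X β M n r' (i+1) * X β M n r i) := by
  have h := (logratio_bounds hβ hM n i hr).1
  have p1 := X_pos (β := β) (r := r) hM n (i+1)
  have p2 := X_pos (β := β) (r := r') hM n i
  have p3 := X_pos (β := β) (r := r') hM n (i+1)
  have p4 := X_pos (β := β) (r := r) hM n i
  rw [← Real.log_le_log_iff (mul_pos p1 p2) (mul_pos (Real.exp_pos _) (mul_pos p3 p4)),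
    Real.log_mul p1.ne' p2.ne', Real.log_mul (Real.exp_pos _).ne' (mul_pos p3 p4).ne',
    Real.log_mul p3.ne' p4.ne', Real.log_exp]
  linarith

/-- `X`-form of Core 2, upper half. -/
theorem X_up (hβ : 0 < β) (hM : 0 < M) (n i : ℕ) {r r' : ℝ} (hr : r ≤ r') :
    Real.exp (r' - r) * (X β M n r' (i+1) * X β M n r i) ≤
      Real.exp (2 * max (1 / (Real.exp (2 * β) - 1)) 1 * (r' - r)) *
        (X β M n r (i+1) * X β M n r' i) := by
  have h := (logratio_bounds hβ hM n i hr).2
  have p1 := X_pos (β := β) (r := r) hM n (i+1)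
  have p2 := X_pos (β := β) (r := r') hM n i
  have p3 := X_pos (β := β) (r := r') hM n (i+1)
  have p4 := X_pos (β := β) (r := r) hM n i
  rw [← Real.log_le_log_iff (mul_pos (Real.exp_pos _) (mul_pos p3 p4))
      (mul_pos (Real.exp_pos _) (mul_pos p1 p2)),
    Real.log_mul (Real.exp_pos _).ne' (mul_pos p1 p2).ne', Real.log_exp,
    Real.log_mul (Real.exp_pos _).ne' (mul_pos p3 p4).ne', Real.log_exp,
    Real.log_mul p1.ne' p2.ne', Real.log_mul p3.ne' p4.ne']
  linarith

end Polymer903
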