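import Mathlib
import Pool.Agent.Helper903.Polymer.Resp

/-!
# The `Core` interface used by the link (definitions of helper839, copied)
-/

namespace Polymer903.Iface

open Polymer903

noncomputable def aE (r β : ℝ) (i j : ℕ) : ℝ :=
  (Nat.choose (i + j) i : ℝ) * Real.exp (r * ((i : ℝ) + j + 1) - β * ((i : ℝ) + j + 1) ^ 2)

noncomputable def XI (r β : ℝ) (M : ℕ) : ℕ → ℕ → ℝ
  | 0, _ => 1
  | m + 1, i => ∑ j ∈ Finset.range M, aE r β i j * XI r β M m j

structure Core (β C : ℝ) : Prop where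
  one_le : 1 ≤ C
  lc : ∀ (r : ℝ) (M m i : ℕ), i + 2 < M →
    XI r β M m i * XI r β M m (i + 2) ≤ XI r β M m (i + 1) ^ 2
  mlr : ∀ (r r' : ℝ) (M m i : ℕ), r ≤ r' → i + 1 < M →
    XI r β M m (i + 1) * XI r' β M m i ≤
      Real.exp (r' - r) * (XI r' β M m (i + 1) * XI r β M m i)
  up : ∀ (r r' : ℝ) (M m i : ℕ), r ≤ r' → i + 1 < M →
    Real.exp (r' - r) * (XI r' β M m (i + 1) * XI r β M m i) ≤
      Real.exp (C * (r' - r)) * (XI r β M m (i + 1) * XI r' β M m i)

theorem XI_eq (r β : ℝ) (M m i : ℕ) : XI r β M m i = X β M m r i := by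
  induction m generalizing i with
  | zero => rfl
  | succ m ih =>
    simp only [XI, X_succ, ih]
    rfl

theorem core (β : ℝ) (hβ : 0 < β) : ∃ C, Core β C := by
  refine ⟨2 * max (1 / (Real.exp (2 * β) - 1)) 1, ?_, ?_, ?_, ?_⟩
  · have := le_max_right (1 / (Real.exp (2 * β) - 1)) 1
    linarith
  · intro r M m i hi
    simp only [XI_eq]
    exact X_logconcave hβ (by omega) m i
  · intro r r' M m i hr hi
    simp only [XI_eq]
    exact X_mlr hβ (by omega) m i hr
  · intro r r' M m i hr hi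
    simp only [XI_eq]
    exact X_up hβ (by omega) m i hr

end Polymer903.Iface
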